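import Pool.Agent.H65.AF.CDefs
import Pool.Agent.H88.AF.Spec
import Pool.Agent.H88.AF.Av
import Pool.Agent.H88.AF.OmF
import Pool.Agent.H14.AF.Signs

/-!
helper87 (project MP_28250c_AF): definitions for C10-C11 in witness form (with the phase function of degree one, helper16).
-/

set_option autoImplicit false

namespace ACpFrege

/-- `x` is a unit eigenvector for the largest eigenvalue. -/
def TV {M : ℕ} (H : Matrix (Fin M) (Fin M) ℂ) (x : Fin M → ℂ) : Prop :=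
  nsq x = 1 ∧ H.mulVec x = (lam H 0 : ℂ) • x

/-- `|z| (z/|z|)^q`. -/
noncomputable def psi (q : ℕ) (z : ℂ) : ℂ := z ^ q / ((‖z‖ ^ (q - 1) : ℝ) : ℂ)

/-- The phase function. -/
noncomputable def Phi {M : ℕ} (q : ℕ) (f : Fin M → ℝ) (x : Fin M → ℂ) : ℂ := ∑ u, (f u : ℂ) * psi q (x u)

/-- The phase function is close at all good matrices which are reached by at most `R` moves. -/
def PhC {M : ℕ} (q R L : ℕ) (θ δ : ℝ) (f : Fin M → ℝ) (w : Matrix (Fin M) (Fin M) ℂ) (a : Fin M → Fin M → ZMod q) : Prop :=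
  ∀ s : List (Vr M × ZMod q), s.length ≤ R → GoodH L θ (msk (a + tot s) w) → ∀ x x' : Fin M → ℂ, TV (msk a w) x →
    TV (msk (a + tot s) w) x' → 0 ≤ (ip x x').re → (ip x x').im = 0 → ‖Phi q f x - Phi q f x'‖ ≤ δ

/-- The phase conditions at `a`. -/
def PhG {M : ℕ} (q R L : ℕ) (θ δ : ℝ) (f : Fin M → ℝ) (w : Matrix (Fin M) (Fin M) ℂ) (a : Fin M → Fin M → ZMod q) : Prop :=
  (∀ x, TV (msk a w) x → 1 / 2 ≤ ‖Phi q f x‖) ∧ PhC q R L θ δ f w a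

/-- Good exponent matrices. -/
def GoodW {M : ℕ} (q R L : ℕ) (θ δ : ℝ) (f : Fin M → ℝ) (w : Matrix (Fin M) (Fin M) ℂ) (a : Fin M → Fin M → ZMod q) : Prop :=
  Asy a ∧ GoodH L θ (msk a w) ∧ PhG q R L θ δ f w a

/-- W1 (helper14): top vectors of two good matrices which agree off few rows and columns are close up to a phase. -/
def StW1 : Prop := ∃ C : ℝ, ∀ (M L : ℕ) (θ : ℝ) (H H' : Matrix (Fin M) (Fin M) ℂ) (T : Finset (Fin M)) (x x' : Fin M → ℂ),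
  1 ≤ L → L ^ 400 ≤ M → M < (L + 1) ^ 400 → 1.98 * Real.sqrt M ≤ θ → θ ≤ 2.1 * Real.sqrt M → H.IsHermitian → H'.IsHermitian → T.card ≤ L →
  (∀ u ∉ T, ∀ v ∉ T, H u v = H' u v) → GoodH L θ H → GoodH L θ H' → TV H x → TV H' x' → 1 - ‖ip x x'‖ ≤ C / (L : ℝ) ^ 13

/-- W2 (helper14): the phase conditions hold with probability at least `1/8` over the signs, at every good matrix. -/
def StW2 : Prop := ∀ q : ℕ, 3 ≤ q → ∀ [NeZero q], ∀ δ : ℝ, 0 < δ → ∃ M₀ : ℕ, ∀ M ≥ M₀, ∀ R L : ℕ, L ^ 400 ≤ M → M < (L + 1) ^ 400 →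
  R ≤ L → ∀ θ : ℝ, 1.98 * Real.sqrt M ≤ θ → θ ≤ 2.1 * Real.sqrt M → ∀ w : Matrix (Fin M) (Fin M) ℂ, w.IsHermitian →
  ∀ a : Fin M → Fin M → ZMod q, Asy a → GoodH L θ (msk a w) → 1 / 8 ≤ pr (fun f : Fin M → Bool => PhG q R L θ δ (sg f) w a)

open Classical in
/-- W4 (helper34): counting. -/
def StW4 : Prop := ∀ q : ℕ, 3 ≤ q → ∀ [NeZero q], ∀ δ : ℝ, 0 < δ → ∃ M₀ : ℕ, ∀ M ≥ M₀, ∀ R L : ℕ, L ^ 400 ≤ M → M < (L + 1) ^ 400 →
  R ≤ L → ∃ (θ : ℝ) (w : Matrix (Fin M) (Fin M) ℂ) (f : Fin M → ℝ), 1.98 * Real.sqrt M ≤ θ ∧ θ ≤ 2.1 * Real.sqrt M ∧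
    w.IsHermitian ∧ Fintype.card (Fin M → Fin M → ZMod q) ≤
      M ^ 2 * (Finset.univ.filter fun c : Fin M → Fin M → ZMod q => GoodW q R L θ δ f w (anti c)).card

end ACpFrege
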