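import Pool.Agent.H87.AF.W3

/-!
helper87 (project MP_28250c_AF): W3, the statement `PartW`.
-/

set_option autoImplicit false
set_option exponentiation.threshold 500

namespace ACpFrege

variable {M q : ℕ}

theorem asy_iffW (a : Fin M → Fin M → ZMod q) : Asy a ↔ (∀ i j, a j i = - a i j) ∧ ∀ i, a i i = 0 := by
  constructor
  · rintro ⟨c, rfl⟩
    constructor
    · intro i j
      unfold anti
      rcases lt_trichotomy i j with h | h | h
      · simp [h, not_lt_of_gt h]
      · subst h; simp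
      · simp [h, not_lt_of_gt h]
    · intro i
      simp [anti]
  · rintro ⟨h1, h2⟩
    refine ⟨a, ?_⟩
    funext i j
    unfold anti
    rcases lt_trichotomy i j with h | h | h
    · simp [h]
    · subst h; simp [h2]
    · simp [h, not_lt_of_gt h, h1 j i]

theorem asy_addW {a b : Fin M → Fin M → ZMod q} (ha : Asy a) (hb : Asy b) : Asy (a + b) := by
  rw [asy_iffW] at ha hb ⊢
  constructor
  · intro i j
    rw [Pi.add_apply, Pi.add_apply, Pi.add_apply, Pi.add_apply, ha.1 i j, hb.1 i j]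
    ring
  · intro i
    rw [Pi.add_apply, Pi.add_apply, ha.2, hb.2, add_zero]

theorem asy_zeroW : Asy (0 : Fin M → Fin M → ZMod q) := by
  rw [asy_iffW]
  simp

theorem asy_smulW (k : ZMod q) {a : Fin M → Fin M → ZMod q} (ha : Asy a) : Asy (k • a) := by
  rw [asy_iffW] at ha ⊢
  constructor
  · intro i j
    simp only [Pi.smul_apply, smul_eq_mul, ha.1 i j, mul_neg]
  · intro i
    simp only [Pi.smul_apply, smul_eq_mul, ha.2, mul_zero]

theorem asy_mvx (u v : Fin M) : Asy (mvx q u v) := by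
  rw [asy_iffW]
  constructor
  · intro i j
    unfold mvx
    rw [neg_sub]
    congr 1
    · exact if_congr (and_comm) rfl rfl
    · exact if_congr (and_comm) rfl rfl
  · intro i
    unfold mvx
    rw [sub_eq_zero]
    exact if_congr (and_comm) rfl rfl

theorem asy_mv (z : Vr M) : Asy (mv q z) := by
  rcases z with ⟨u, v⟩ | ⟨v, t⟩
  · exact asy_mvx u v
  · change Asy (∑ u ∈ Finset.univ.filter (fun u : Fin M => u.val < t.val), mvx q v u)
    refine Finset.sum_induction _ Asy (fun a b => asy_addW) asy_zeroW fun u _ => asy_mvx v u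

theorem asy_tot (s : List (Vr M × ZMod q)) : Asy (tot s) := by
  unfold tot
  induction s with
  | nil => exact asy_zeroW
  | cons z s ih =>
    rw [List.map_cons, List.sum_cons]
    exact asy_addW (asy_smulW _ (asy_mv _)) ih

/-- The row of a variable. -/
def rwW : Vr M → Fin M
  | .inl (u, _) => u
  | .inr (v, _) => v

theorem mvx_off {u v i j : Fin M} (hi : i ≠ u) (hj : j ≠ u) : mvx q u v i j = 0 := by
  unfold mvx
  rw [if_neg (fun h => hi h.1), if_neg (fun h => hj h.2), sub_zero]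

theorem mv_off (z : Vr M) {i j : Fin M} (hi : i ≠ rwW z) (hj : j ≠ rwW z) : mv q z i j = 0 := by
  rcases z with ⟨u, v⟩ | ⟨v, t⟩
  · exact mvx_off hi hj
  · change (∑ u ∈ Finset.univ.filter (fun u : Fin M => u.val < t.val), mvx q v u) i j = 0
    rw [Finset.sum_apply, Finset.sum_apply]
    exact Finset.sum_eq_zero fun u _ => mvx_off hi hj

theorem tot_off (s : List (Vr M × ZMod q)) {i j : Fin M} (hi : ∀ z ∈ s, i ≠ rwW z.1) (hj : ∀ z ∈ s, j ≠ rwW z.1) :
    tot s i j = 0 := by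
  unfold tot
  induction s with
  | nil => rfl
  | cons z s ih =>
    rw [List.map_cons, List.sum_cons, Pi.add_apply, Pi.add_apply,
      ih (fun y hy => hi y (List.mem_cons_of_mem _ hy)) (fun y hy => hj y (List.mem_cons_of_mem _ hy)), add_zero]
    simp only [Pi.smul_apply, smul_eq_mul]
    rw [mv_off z.1 (hi z List.mem_cons_self) (hj z List.mem_cons_self), mul_zero]

theorem exists_L (M : ℕ) : ∃ L : ℕ, L ^ 400 ≤ M ∧ M < (L + 1) ^ 400 := by
  have hex : ∃ L : ℕ, M < (L + 1) ^ 400 := ⟨M, lt_of_lt_of_le (Nat.lt_succ_self M) (Nat.le_self_pow (by norm_num) _)⟩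
  classical
  refine ⟨Nat.find hex, ?_, Nat.find_spec hex⟩
  rcases Nat.eq_zero_or_pos (Nat.find hex) with h | h
  · rw [h]; simp
  · have := Nat.find_min hex (m := Nat.find hex - 1) (by omega)
    rw [not_lt, Nat.sub_add_cancel h] at this
    exact this

theorem partW_of (h1 : StW1) (h4 : StW4) (q : ℕ) (hq : 3 ≤ q) [NeZero q] : PartW q := by
  obtain ⟨C, hC⟩ := h1
  have hq0 : (0 : ℝ) < q := by exact_mod_cast (by omega : 0 < q)
  set δ : ℝ := 1 / (160 * q) with hδ
  obtain ⟨M₁, hM₁⟩ := h4 q hq δ (by positivity)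
  obtain ⟨L₁, hL₁⟩ := exists_nat_ge (3200 * (q : ℝ) ^ 2 * C)
  obtain ⟨M₂, hM₂⟩ := exists_nat_ge ((800000 * (q : ℝ) ^ 2) ^ 2)
  obtain ⟨L₀, hL₀a, hL₀b⟩ : ∃ L₀ : ℕ, 1 ≤ L₀ ∧ L₁ ≤ L₀ := ⟨max 1 L₁, le_max_left _ _, le_max_right _ _⟩
  refine ⟨max (max M₁ M₂) (max 1 (L₀ ^ 400)), fun M hM R hR => ?_⟩
  have hMa : M₁ ≤ M := le_trans (le_trans (le_max_left _ _) (le_max_left _ _)) hM
  have hMb : M₂ ≤ M := le_trans (le_trans (le_max_right _ _) (le_max_left _ _)) hM
  have hMc : 1 ≤ M := le_trans (le_trans (le_max_left _ _) (le_max_right _ _)) hM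
  have hMd : L₀ ^ 400 ≤ M := le_trans (le_trans (le_max_right _ _) (le_max_right _ _)) hM
  obtain ⟨L, hL1, hL2⟩ := exists_L M
  have hLL : L₀ ≤ L := by
    by_contra hcon
    have : (L + 1) ^ 400 ≤ L₀ ^ 400 := Nat.pow_le_pow_left (by omega) 400
    omega
  have hRL : R ≤ L := by
    by_contra hcon
    have : (L + 1) ^ 400 ≤ R ^ 400 := Nat.pow_le_pow_left (by omega) 400
    omega
  have hLpos : 1 ≤ L := le_trans hL₀a hLL
  have hLr : (1 : ℝ) ≤ L := by exact_mod_cast hLpos
  have hMr : (1 : ℝ) ≤ M := by exact_mod_cast hMc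
  obtain ⟨θ, w, f, hθ1, hθ2, hw, hcard⟩ := hM₁ M hMa R L hL1 hL2 hRL
  have hL0 : (0 : ℝ) < L := lt_of_lt_of_le one_pos hLr
  have hM0 : (0 : ℝ) < M := lt_of_lt_of_le one_pos hMr
  have hg : 0 < gg M L := div_pos (pow_pos hL0 16) (Real.sqrt_pos.2 hM0)
  have hasy : ∀ a : Fin M → Fin M → ZMod q, Asy a → ∀ s : List (Vr M × ZMod q), Asy (a + tot s) :=
    fun a ha s => asy_addW ha (asy_tot s)
  have hx : ∀ a, GoodW q R L θ δ f w a → PX f w a (xW f w a) := fun a ha =>
    xW_spec (exists_PX (by omega) hMc hw ha)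
  refine ⟨{a | GoodW q R L θ δ f w a}, xW f w, ⟨?_, ?_, ?_, ?_, ?_⟩, hcard⟩
  · intro a ha
    exact ha.1
  · intro a ha
    exact (hx a ha).1.1
  · -- small entries
    intro a ha v
    have hH := msk_hermW ha.1 hw
    have hgap := gap_of_base hg ha.2.1.1
    obtain ⟨c, hc, h5⟩ := TV_eq hH hgap (hx a ha).1
    rw [h5, Pi.smul_apply, smul_eq_mul, norm_mul, hc, one_mul]
    refine (ha.2.1.2.1 v).trans ?_
    have h6 : Real.log M ≤ 2 * Real.sqrt M := by
      have h7 := Real.log_le_sub_one_of_pos (show 0 < Real.sqrt M from Real.sqrt_pos.2 (by linarith))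
      rw [Real.log_sqrt (by linarith)] at h7
      linarith [Real.sqrt_nonneg (M : ℝ)]
    have h8 : (800000 * (q : ℝ) ^ 2) ^ 2 ≤ M := hM₂.trans (Nat.cast_le.2 hMb)
    have h9 : 800000 * (q : ℝ) ^ 2 ≤ Real.sqrt M := Real.le_sqrt_of_sq_le h8
    have h10 : Real.sqrt M * Real.sqrt M = M := Real.mul_self_sqrt (by linarith)
    rw [div_le_div_iff₀ (by linarith) (by positivity)]
    have h11 : (0:ℝ) < Real.sqrt M := Real.sqrt_pos.2 (by linarith)
    calc 1000 * Real.log M * (20 * (q : ℝ)) ^ 2 ≤ 1000 * (2 * Real.sqrt M) * (20 * (q : ℝ)) ^ 2 := by gcongr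
      _ = (800000 * (q : ℝ) ^ 2) * Real.sqrt M := by ring
      _ ≤ Real.sqrt M * Real.sqrt M := by gcongr
      _ = 1 * M := by rw [h10, one_mul]
  · -- gauge
    intro a ha v
    have hA := GoodW_dl hw hMc hg ha v (hasy a ha.1)
    refine ⟨hA, ?_⟩
    have h5 := hx a ha
    have h6 := hx _ hA
    have hH := msk_hermW ha.1 hw
    have hH' := msk_hermW hA.1 hw
    have h7 : TV (msk (a + dl q v) w) (rot q v (xW f w a)) := by
      rw [msk_dl, rot_eq]
      exact TV_dD (dv_norm v) hH h5.1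
    obtain ⟨c, hc, h8⟩ := TV_pair hH' (gap_of_base hg hA.2.1.1) h7 h6.1
    have h9 : Phi q f (xW f w (a + dl q v)) = c ^ q * Phi q f (xW f w a) := by
      rw [h8, Phi_smW f hc, rot_eq, Phi_dv]
    have h10 : c ^ q = 1 := by
      refine root_one hc (r := ‖Phi q f (xW f w (a + dl q v))‖) (s := ‖Phi q f (xW f w a)‖) ?_ ?_ ?_
      · linarith [hA.2.2.1 _ h6.1]
      · linarith [ha.2.2.1 _ h5.1]
      · rw [← h6.2, ← h5.2, h9]
    obtain ⟨k, hk⟩ := root_nearW (q := q) (by omega) hc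
    rw [h10, sub_self, norm_zero] at hk
    have h11 : c = om q k := by
      have := norm_le_zero_iff.1 hk
      exact sub_eq_zero.1 this
    exact ⟨k, by rw [h8, h11]⟩
  · -- closeness
    intro a ha s hs ha'
    have hH := msk_hermW ha.1 hw
    have hH' := msk_hermW ha'.1 hw
    classical
    set T : Finset (Fin M) := (s.map fun z => rwW z.1).toFinset with hT
    have hTc : T.card ≤ L := by
      refine (List.toFinset_card_le _).trans ?_
      rw [List.length_map]
      exact hs.trans hRL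
    have hoff : ∀ u ∉ T, ∀ v ∉ T, msk a w u v = msk (a + tot s) w u v := by
      intro u hu v hv
      have h12 : tot s u v = 0 := by
        refine tot_off s (fun z hz he => hu ?_) (fun z hz he => hv ?_)
        · rw [hT, List.mem_toFinset, List.mem_map]
          exact ⟨z, hz, he.symm⟩
        · rw [hT, List.mem_toFinset, List.mem_map]
          exact ⟨z, hz, he.symm⟩
      unfold msk
      rw [Pi.add_apply, Pi.add_apply, h12, add_zero]
    have h13 := hC M L θ _ _ T _ _ hLpos hL1 hL2 hθ1 hθ2 hH hH' hTc hoff ha.2.1 ha'.2.1 (hx a ha).1 (hx _ ha').1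
    obtain ⟨k, hk⟩ := clo_W (by omega) ha hs ha' (hx a ha) (hx _ ha') h13
    refine ⟨k, hk.trans ?_⟩
    have h14 : C / (L : ℝ) ^ 13 ≤ 1 / (3200 * (q : ℝ) ^ 2) := by
      rw [div_le_div_iff₀ (pow_pos hL0 13) (mul_pos (by norm_num) (pow_pos hq0 2))]
      have h15 : 3200 * (q : ℝ) ^ 2 * C ≤ L := hL₁.trans (Nat.cast_le.2 (hL₀b.trans hLL))
      have h16 : (L : ℝ) ≤ (L : ℝ) ^ 13 := le_self_pow₀ hLr (by norm_num)
      linarith
    have h17 : 32 * δ ^ 2 = 1 / (800 * (q : ℝ) ^ 2) := by rw [hδ]; field_simp; norm_num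
    rw [h17]
    have h18 : 1 / (20 * (q : ℝ)) ^ 2 = 4 * (1 / (3200 * (q : ℝ) ^ 2)) + 1 / (800 * (q : ℝ) ^ 2) := by field_simp; norm_num
    rw [h18]
    linarith

end ACpFrege
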