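import Pool.Agent.H87.AF.W3f
import Pool.Agent.H14.AF.W1
import Pool.Agent.H14.AF.W2
import Pool.Agent.H34.AF.W4

/-!
helper87 (project MP_28250c_AF): C10-C11 complete.
-/

set_option autoImplicit false

namespace ACpFrege

theorem partW_of_outG (hG : OutG) (q : ℕ) (hq : 3 ≤ q) [NeZero q] : PartW q := partW_of stW1 (stW4 hG stW2) q hq

end ACpFrege
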