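import Pool.Agent.H87.AF.WtDefs

/-!
helper87 (project MP_28250c_AF): conjugation by diagonal unitary matrices.
-/

set_option autoImplicit false

namespace ACpFrege

variable {M : ℕ}

/-- Conjugation by a diagonal matrix. -/
noncomputable def cD (d : Fin M → ℂ) (H : Matrix (Fin M) (Fin M) ℂ) : Matrix (Fin M) (Fin M) ℂ :=
  fun i j => d i * H i j * (starRingEnd ℂ) (d j)

/-- Multiplication by a diagonal matrix. -/
def dD (d : Fin M → ℂ) (x : Fin M → ℂ) : Fin M → ℂ := fun i => d i * x i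

theorem conj_mul_one {z : ℂ} (h : ‖z‖ = 1) : (starRingEnd ℂ) z * z = 1 := by
  rw [Complex.conj_mul', h]; norm_num

theorem mul_conj_one {z : ℂ} (h : ‖z‖ = 1) : z * (starRingEnd ℂ) z = 1 := by
  rw [mul_comm, conj_mul_one h]

theorem cD_mulVec {d : Fin M → ℂ} (hd : ∀ i, ‖d i‖ = 1) (H : Matrix (Fin M) (Fin M) ℂ) (x : Fin M → ℂ) :
    (cD d H).mulVec (dD d x) = dD d (H.mulVec x) := by
  funext i
  simp only [Matrix.mulVec, dotProduct, cD, dD, Finset.mul_sum]
  refine Finset.sum_congr rfl fun j _ => ?_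
  calc d i * H i j * (starRingEnd ℂ) (d j) * (d j * x j)
      = d i * (H i j * x j) * ((starRingEnd ℂ) (d j) * d j) := by ring
    _ = d i * (H i j * x j) := by rw [conj_mul_one (hd j), mul_one]

theorem nsq_dD {d : Fin M → ℂ} (hd : ∀ i, ‖d i‖ = 1) (x : Fin M → ℂ) : nsq (dD d x) = nsq x := by
  unfold nsq dD
  refine Finset.sum_congr rfl fun i _ => ?_
  rw [norm_mul, hd, one_mul]

theorem ip_dD {d : Fin M → ℂ} (hd : ∀ i, ‖d i‖ = 1) (x y : Fin M → ℂ) : ip (dD d x) (dD d y) = ip x y := by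
  unfold ip dD
  refine Finset.sum_congr rfl fun i _ => ?_
  rw [map_mul]
  calc (starRingEnd ℂ) (d i) * (starRingEnd ℂ) (x i) * (d i * y i)
      = ((starRingEnd ℂ) (d i) * d i) * ((starRingEnd ℂ) (x i) * y i) := by ring
    _ = _ := by rw [conj_mul_one (hd i), one_mul]

theorem cD_herm {d : Fin M → ℂ} {H : Matrix (Fin M) (Fin M) ℂ} (hH : H.IsHermitian) : (cD d H).IsHermitian := by
  refine Matrix.IsHermitian.ext fun i j => ?_
  have h := hH.apply i j
  have e : star (cD d H j i) = d i * star (H j i) * (starRingEnd ℂ) (d j) := by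
    unfold cD
    simp only [RCLike.star_def, map_mul, Complex.conj_conj]
    ring
  rw [e, h]
  rfl

theorem cD_cD {d : Fin M → ℂ} (hd : ∀ i, ‖d i‖ = 1) (H : Matrix (Fin M) (Fin M) ℂ) :
    cD (fun i => (starRingEnd ℂ) (d i)) (cD d H) = H := by
  funext i j
  unfold cD
  simp only [Complex.conj_conj]
  calc (starRingEnd ℂ) (d i) * (d i * H i j * (starRingEnd ℂ) (d j)) * d j
      = ((starRingEnd ℂ) (d i) * d i) * H i j * ((starRingEnd ℂ) (d j) * d j) := by ring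
    _ = H i j := by rw [conj_mul_one (hd i), conj_mul_one (hd j)]; ring

theorem dD_dD {d : Fin M → ℂ} (hd : ∀ i, ‖d i‖ = 1) (x : Fin M → ℂ) :
    dD d (dD (fun i => (starRingEnd ℂ) (d i)) x) = x := by
  funext i
  unfold dD
  rw [← mul_assoc, mul_conj_one (hd i), one_mul]

theorem cD_charpoly {d : Fin M → ℂ} (hd : ∀ i, ‖d i‖ = 1) (H : Matrix (Fin M) (Fin M) ℂ) :
    (cD d H).charpoly = H.charpoly := by
  have h1 : cD d H = Matrix.diagonal d * H * Matrix.diagonal (fun i => (starRingEnd ℂ) (d i)) := by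
    funext i j
    rw [Matrix.mul_diagonal, Matrix.diagonal_mul]
    rfl
  have h2 : Matrix.diagonal (fun i => (starRingEnd ℂ) (d i)) * Matrix.diagonal d = 1 := by
    rw [Matrix.diagonal_mul_diagonal, ← Matrix.diagonal_one]
    congr 1
    funext i
    exact conj_mul_one (hd i)
  rw [h1, Matrix.charpoly_mul_comm, ← Matrix.mul_assoc, h2, Matrix.one_mul]

theorem lam_cD {d : Fin M → ℂ} (hd : ∀ i, ‖d i‖ = 1) {H : Matrix (Fin M) (Fin M) ℂ} (hH : H.IsHermitian) (j : ℕ) :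
    lam (cD d H) j = lam H j := by
  unfold lam
  by_cases hj : j < Fintype.card (Fin M)
  · rw [dif_pos ⟨cD_herm hH, hj⟩, dif_pos ⟨hH, hj⟩]
    have h3 : (cD_herm (d := d) hH).eigenvalues₀ = hH.eigenvalues₀ := by
      rw [← List.ofFn_inj, ← (cD_herm (d := d) hH).sort_roots_charpoly_eq_eigenvalues₀,
        ← hH.sort_roots_charpoly_eq_eigenvalues₀, cD_charpoly hd H]
    rw [h3]
  · rw [dif_neg (fun h => hj h.2), dif_neg (fun h => hj h.2)]

theorem TV_eq {H : Matrix (Fin M) (Fin M) ℂ} (hH : H.IsHermitian) (hg : lam H 1 < lam H 0) {x : Fin M → ℂ} (hx : TV H x) :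
    ∃ c : ℂ, ‖c‖ = 1 ∧ x = c • xi H 0 := by
  obtain ⟨h1, h2⟩ := hx
  have hz : ∀ j, 0 < j → j < Fintype.card (Fin M) → ip (xi H j) x = 0 := by
    intro j hj hjM
    have h3 := ip_xi_mulVec hH hjM x
    rw [h2, ip_smul_right] at h3
    have h4 : lam H j < lam H 0 := lt_of_le_of_lt (lam_anti hH hj hjM) hg
    have h5 : ((lam H 0 : ℂ) - (lam H j : ℂ)) * ip (xi H j) x = 0 := by rw [sub_mul, h3, sub_self]
    rcases mul_eq_zero.1 h5 with h6 | h6
    · exfalso
      rw [sub_eq_zero] at h6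
      have : lam H 0 = lam H j := by exact_mod_cast h6
      linarith
    · exact h6
  have hc : 0 < Fintype.card (Fin M) := by
    rw [Fintype.card_fin]
    rcases Nat.eq_zero_or_pos M with h | h
    · subst h
      exfalso
      simp [nsq] at h1
    · exact h
  have h6 : x = ip (xi H 0) x • xi H 0 := by
    conv_lhs => rw [xi_expand hH x]
    rw [Finset.sum_eq_single 0]
    · intro j hj hj0
      rw [hz j (Nat.pos_of_ne_zero hj0) (Finset.mem_range.1 hj), zero_smul]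
    · intro h
      exact absurd (Finset.mem_range.2 hc) h
  refine ⟨ip (xi H 0) x, ?_, h6⟩
  rw [h6, nsq_smul, xi_nsq hH hc, mul_one] at h1
  nlinarith [norm_nonneg (ip (xi H 0) x)]

theorem TV_xi {H : Matrix (Fin M) (Fin M) ℂ} (hH : H.IsHermitian) (hM : 0 < M) : TV H (xi H 0) :=
  ⟨xi_nsq hH (by rw [Fintype.card_fin]; exact hM), xi_eig hH (by rw [Fintype.card_fin]; exact hM)⟩

theorem TV_smul {H : Matrix (Fin M) (Fin M) ℂ} {x : Fin M → ℂ} (hx : TV H x) {c : ℂ} (hc : ‖c‖ = 1) : TV H (c • x) := by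
  refine ⟨by rw [nsq_smul, hc, hx.1]; norm_num, ?_⟩
  rw [Matrix.mulVec_smul, hx.2, smul_comm]

theorem TV_pair {H : Matrix (Fin M) (Fin M) ℂ} (hH : H.IsHermitian) (hg : lam H 1 < lam H 0) {x y : Fin M → ℂ} (hx : TV H x)
    (hy : TV H y) : ∃ c : ℂ, ‖c‖ = 1 ∧ y = c • x := by
  obtain ⟨c, hc, h1⟩ := TV_eq hH hg hx
  obtain ⟨e, he, h2⟩ := TV_eq hH hg hy
  have hc0 : c ≠ 0 := by intro h; rw [h, norm_zero] at hc; exact zero_ne_one hc
  refine ⟨e * c⁻¹, by rw [norm_mul, norm_inv, he, hc]; norm_num, ?_⟩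
  rw [h2, h1, smul_smul, mul_assoc, inv_mul_cancel₀ hc0, mul_one]

theorem TV_dD {d : Fin M → ℂ} (hd : ∀ i, ‖d i‖ = 1) {H : Matrix (Fin M) (Fin M) ℂ} (hH : H.IsHermitian) {x : Fin M → ℂ}
    (hx : TV H x) : TV (cD d H) (dD d x) := by
  refine ⟨by rw [nsq_dD hd, hx.1], ?_⟩
  rw [cD_mulVec hd, hx.2, lam_cD hd hH]
  funext i
  simp only [dD, Pi.smul_apply, smul_eq_mul]
  ring

theorem norm_conj_one {d : Fin M → ℂ} (hd : ∀ i, ‖d i‖ = 1) : ∀ i, ‖(starRingEnd ℂ) (d i)‖ = 1 := by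
  intro i
  rw [RCLike.norm_conj, hd]

theorem TV_dD_inv {d : Fin M → ℂ} (hd : ∀ i, ‖d i‖ = 1) {H : Matrix (Fin M) (Fin M) ℂ} (hH : H.IsHermitian) {y : Fin M → ℂ}
    (hy : TV (cD d H) y) : TV H (dD (fun i => (starRingEnd ℂ) (d i)) y) := by
  have h := TV_dD (norm_conj_one hd) (cD_herm (d := d) hH) hy
  rwa [cD_cD hd] at h

theorem gap_of_base {θ g : ℝ} {H : Matrix (Fin M) (Fin M) ℂ} (hg : 0 < g) (h : Base θ g H) : lam H 1 < lam H 0 := by
  have h1 := h.1
  have h2 := h.2.2.1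
  linarith

theorem Good_cD {d : Fin M → ℂ} (hd : ∀ i, ‖d i‖ = 1) {H : Matrix (Fin M) (Fin M) ℂ} (hH : H.IsHermitian) {L : ℕ} {θ : ℝ}
    (hM : 0 < M) (hg : 0 < gg M L) (h : GoodH L θ H) : GoodH L θ (cD d H) := by
  obtain ⟨h1, h2, h3⟩ := h
  refine ⟨?_, ?_, ?_⟩
  · unfold Base at h1 ⊢
    simp only [lam_cD hd hH]
    exact h1
  · have hg1 := gap_of_base hg h1
    have hg2 : lam (cD d H) 1 < lam (cD d H) 0 := by rw [lam_cD hd hH, lam_cD hd hH]; exact hg1
    obtain ⟨c, hc, h4⟩ := TV_eq (cD_herm hH) hg2 (TV_dD hd hH (TV_xi hH hM))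
    intro u
    have h5 := congrFun h4 u
    simp only [dD, Pi.smul_apply, smul_eq_mul] at h5
    have h6 : ‖xi H 0 u‖ = ‖xi (cD d H) 0 u‖ := by
      have := congrArg norm h5
      rwa [norm_mul, norm_mul, hd, hc, one_mul, one_mul] at this
    rw [← h6]
    exact h2 u
  · intro u v
    have : ‖cD d H u v‖ = ‖H u v‖ := by
      unfold cD
      rw [norm_mul, norm_mul, hd, RCLike.norm_conj, hd]
      ring
    rw [this]
    exact h3 u v

end ACpFrege
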