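import Pool.Agent.H88.AF.OmF

/-!
helper87 (project MP_28250c_AF): a unit complex number is as close to a `q`-th root of unity as its `q`-th power is to `1`.
-/

set_option autoImplicit false

namespace ACpFrege

private theorem om_intCast {q : ℕ} [NeZero q] (k : ℤ) :
    om q (k : ZMod q) = Complex.exp (Complex.I * ((2 * Real.pi * k / q : ℝ) : ℂ)) := by
  rcases Int.eq_nat_or_neg k with ⟨n, rfl | rfl⟩
  · rw [Int.cast_natCast, om_natCast, ← Complex.exp_nat_mul]
    congr 1
    push_cast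
    ring
  · rw [Int.cast_neg, Int.cast_natCast, om_neg, om_natCast, ← Complex.exp_nat_mul, ← Complex.exp_conj]
    congr 1
    simp only [map_mul, map_div₀, Complex.conj_I, Complex.conj_ofReal, map_natCast, map_ofNat]
    push_cast
    ring

theorem root_nearW {q : ℕ} [NeZero q] (hq2 : 2 ≤ q) {c : ℂ} (hc : ‖c‖ = 1) : ∃ k : ZMod q, ‖c - om q k‖ ≤ ‖c ^ q - 1‖ := by
  have hq : (0 : ℝ) < q := Nat.cast_pos.2 (Nat.pos_of_ne_zero (NeZero.ne q))
  have hq1 : (2 : ℝ) ≤ q := by exact_mod_cast hq2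
  set α : ℝ := c.arg with hα
  have h1 : c = Complex.exp (Complex.I * (α : ℂ)) := by
    have h := Complex.norm_mul_exp_arg_mul_I c
    rw [hc, Complex.ofReal_one, one_mul] at h
    rw [mul_comm, h]
  set k : ℤ := round (q * α / (2 * Real.pi)) with hk
  have hpi := Real.pi_pos
  set β : ℝ := α - 2 * Real.pi * k / q with hβ
  have h2 : |q * α / (2 * Real.pi) - k| ≤ 1 / 2 := abs_sub_round _
  have h3 : q * β = 2 * Real.pi * (q * α / (2 * Real.pi) - k) := by
    rw [hβ]
    field_simp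
  have h4 : |q * β| ≤ Real.pi := by
    rw [h3, abs_mul, abs_of_pos (by positivity)]
    nlinarith
  refine ⟨(k : ZMod q), ?_⟩
  have h5 : c = Complex.exp (Complex.I * (β : ℂ)) * om q (k : ZMod q) := by
    rw [om_intCast, ← Complex.exp_add, h1]
    congr 1
    rw [hβ]
    push_cast
    ring
  have h6 : om q (k : ZMod q) ^ q = 1 := by
    rw [← om_nsmul]
    simp [om_zero]
  have h7 : c - om q (k : ZMod q) = (Complex.exp (Complex.I * (β : ℂ)) - 1) * om q (k : ZMod q) := by
    rw [sub_mul, one_mul, ← h5]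
  have h8 : c ^ q = Complex.exp (Complex.I * ((q * β : ℝ) : ℂ)) := by
    rw [h5, mul_pow, h6, mul_one, ← Complex.exp_nat_mul]
    congr 1
    push_cast
    ring
  rw [h7, norm_mul, om_norm, mul_one, h8]
  have h9 : ‖Complex.exp (Complex.I * (β : ℂ)) - 1‖ ≤ |β| := by
    have := Real.norm_exp_I_mul_ofReal_sub_one_le (x := β)
    simpa using this
  have h10 : 2 / Real.pi * |q * β| ≤ ‖Complex.exp (Complex.I * ((q * β : ℝ) : ℂ)) - 1‖ := by
    rw [Complex.norm_exp_I_mul_ofReal_sub_one, norm_mul, Real.norm_eq_abs, Real.norm_eq_abs, abs_of_pos (by norm_num : (0:ℝ) < 2)]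
    have h11 := Real.mul_abs_le_abs_sin (x := q * β / 2) (by rw [abs_div, abs_of_pos (by norm_num : (0:ℝ) < 2)]; linarith)
    rw [abs_div, abs_of_pos (by norm_num : (0:ℝ) < 2)] at h11
    linarith
  refine h9.trans (le_trans ?_ h10)
  rw [abs_mul, abs_of_pos hq, ← mul_assoc]
  refine le_mul_of_one_le_left (abs_nonneg _) ?_
  rw [div_mul_eq_mul_div, le_div_iff₀ hpi]
  nlinarith [Real.pi_lt_four]

end ACpFrege
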