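import Pool.Agent.H87.AF.Gau
import Pool.Agent.H87.AF.Root

/-!
helper87 (project MP_28250c_AF): W3, the witnesses from the good exponent matrices.
-/

set_option autoImplicit false

namespace ACpFrege

variable {M q : ℕ}

theorem dl_apply (v i j : Fin M) : dl q v i j = (if i = v then 1 else 0) - (if j = v then 1 else 0) := by
  classical
  have h0 : (Finset.univ.filter fun u : Fin M => u.val < (Fin.last M).val) = Finset.univ := by
    ext u
    simp
  change (∑ u ∈ Finset.univ.filter (fun u : Fin M => u.val < (Fin.last M).val), mvx q v u) i j = _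
  rw [h0, Finset.sum_apply, Finset.sum_apply]
  unfold mvx
  rw [Finset.sum_sub_distrib]
  congr 1
  · by_cases h : i = v <;> simp [h]
  · by_cases h : j = v <;> simp [h]

/-- The diagonal of the gauge change at `v`. -/
noncomputable def dv (q : ℕ) (v : Fin M) : Fin M → ℂ := fun i => if i = v then om q 1 else 1

theorem dv_norm [NeZero q] (v : Fin M) : ∀ i, ‖dv q v i‖ = 1 := by
  intro i
  unfold dv
  split_ifs
  · exact om_norm _
  · exact norm_one

theorem rot_eq (v : Fin M) (x : Fin M → ℂ) : rot q v x = dD (dv q v) x := by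
  funext i
  unfold rot dD dv
  split_ifs <;> simp

theorem msk_dl [NeZero q] (a : Fin M → Fin M → ZMod q) (v : Fin M) (w : Matrix (Fin M) (Fin M) ℂ) :
    msk (a + dl q v) w = cD (dv q v) (msk a w) := by
  funext i j
  have h : om q ((a + dl q v) i j) = dv q v i * om q (a i j) * (starRingEnd ℂ) (dv q v j) := by
    rw [Pi.add_apply, Pi.add_apply, dl_apply, sub_eq_add_neg, om_add, om_add, om_neg]
    unfold dv
    split_ifs <;> (try simp only [om_zero, map_one, mul_one, one_mul]) <;> ring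
  unfold msk cD
  rw [h]
  ring

theorem msk_hermW [NeZero q] {a : Fin M → Fin M → ZMod q} (ha : Asy a) {w : Matrix (Fin M) (Fin M) ℂ} (hw : w.IsHermitian) :
    (msk a w).IsHermitian := by
  obtain ⟨c, rfl⟩ := ha
  have h1 : ∀ i j, anti c j i = - anti c i j := by
    intro i j
    unfold anti
    rcases lt_trichotomy i j with h | h | h
    · simp [h, not_lt_of_gt h]
    · subst h; simp
    · simp [h, not_lt_of_gt h]
  refine Matrix.IsHermitian.ext fun i j => ?_
  unfold msk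
  rw [h1 i j, om_neg, star_mul', hw.apply i j]
  simp

theorem asy_dl {a : Fin M → Fin M → ZMod q} (ha : Asy a) (v : Fin M) : Asy (a + dl q v) := by
  obtain ⟨c, rfl⟩ := ha
  refine ⟨fun i j => c i j + dl q v i j, ?_⟩
  funext i j
  rw [Pi.add_apply, Pi.add_apply]
  unfold anti
  rcases lt_trichotomy i j with h | h | h
  · simp [h]
  · subst h; simp [dl_apply]
  · simp only [h, not_lt_of_gt h, if_true, if_false, dl_apply]
    ring

private theorem psi_sm {c : ℂ} (hc : ‖c‖ = 1) (z : ℂ) : psi q (c * z) = c ^ q * psi q z := by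
  unfold psi
  rw [norm_mul, hc, one_mul, mul_pow, mul_div_assoc]

theorem om_pow_q [NeZero q] (k : ZMod q) : om q k ^ q = 1 := by
  rw [← om_nsmul]
  simp [om_zero]

theorem Phi_smW (f : Fin M → ℝ) {c : ℂ} (hc : ‖c‖ = 1) (x : Fin M → ℂ) : Phi q f (c • x) = c ^ q * Phi q f x := by
  unfold Phi
  rw [Finset.mul_sum]
  refine Finset.sum_congr rfl fun u _ => ?_
  rw [Pi.smul_apply, smul_eq_mul, psi_sm hc]
  ring

theorem Phi_dv [NeZero q] (f : Fin M → ℝ) (v : Fin M) (x : Fin M → ℂ) : Phi q f (dD (dv q v) x) = Phi q f x := by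
  unfold Phi
  refine Finset.sum_congr rfl fun u _ => ?_
  have h : psi q (dD (dv q v) x u) = psi q (x u) := by
    unfold dD
    rw [psi_sm (dv_norm v u)]
    have : dv q v u ^ q = 1 := by
      unfold dv
      split_ifs
      · exact om_pow_q _
      · exact one_pow _
    rw [this, one_mul]
  rw [h]

theorem Phi_dv_inv [NeZero q] (f : Fin M → ℝ) (v : Fin M) (x : Fin M → ℂ) :
    Phi q f (dD (fun i => (starRingEnd ℂ) (dv q v i)) x) = Phi q f x := by
  rw [← Phi_dv f v, dD_dD (dv_norm v)]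

/-- The good set is invariant under gauge changes. -/
theorem GoodW_dl [NeZero q] {R L : ℕ} {θ δ : ℝ} {f : Fin M → ℝ} {w : Matrix (Fin M) (Fin M) ℂ} (hw : w.IsHermitian)
    (hM : 0 < M) (hg : 0 < gg M L) {a : Fin M → Fin M → ZMod q} (h : GoodW q R L θ δ f w a) (v : Fin M)
    (hasy : ∀ s : List (Vr M × ZMod q), Asy (a + tot s)) :
    GoodW q R L θ δ f w (a + dl q v) := by
  obtain ⟨h1, h2, h3, h4⟩ := h
  have hd := dv_norm (q := q) v
  refine ⟨asy_dl h1 v, ?_, ?_, ?_⟩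
  · rw [msk_dl]
    exact Good_cD hd (msk_hermW h1 hw) hM hg h2
  · intro x hx
    rw [msk_dl] at hx
    have := h3 _ (TV_dD_inv hd (msk_hermW h1 hw) hx)
    rwa [Phi_dv_inv] at this
  · intro s hs hG x x' hx hx' hre him
    have e : a + dl q v + tot s = (a + tot s) + dl q v := by abel
    rw [e, msk_dl] at hG hx'
    rw [msk_dl] at hx
    have hH' := msk_hermW (hasy s) hw
    have hG' : GoodH L θ (msk (a + tot s) w) := by
      have := Good_cD (norm_conj_one hd) (cD_herm (d := dv q v) hH') hM hg hG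
      rwa [cD_cD hd] at this
    have := h4 s hs hG' _ _ (TV_dD_inv hd (msk_hermW h1 hw) hx) (TV_dD_inv hd hH' hx')
      (by rw [ip_dD (norm_conj_one hd)]; exact hre) (by rw [ip_dD (norm_conj_one hd)]; exact him)
    rwa [Phi_dv_inv, Phi_dv_inv] at this

/-- `x` is a unit top vector with positive phase function. -/
def PX {q : ℕ} (f : Fin M → ℝ) (w : Matrix (Fin M) (Fin M) ℂ) (a : Fin M → Fin M → ZMod q) (x : Fin M → ℂ) : Prop :=
  TV (msk a w) x ∧ Phi q f x = (‖Phi q f x‖ : ℂ)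

theorem exists_root (hq : 0 < q) {z : ℂ} (hz : z ≠ 0) : ∃ c : ℂ, ‖c‖ = 1 ∧ c ^ q * z = (‖z‖ : ℂ) := by
  obtain ⟨c, hc⟩ := IsAlgClosed.exists_pow_nat_eq ((‖z‖ : ℂ) / z) hq
  have h1 : ‖c‖ ^ q = 1 := by
    rw [← norm_pow, hc, norm_div, Complex.norm_real, norm_norm, div_self (norm_ne_zero_iff.2 hz)]
  refine ⟨c, (pow_eq_one_iff_of_nonneg (norm_nonneg _) hq.ne').1 h1, ?_⟩
  rw [hc, div_mul_cancel₀ _ hz]

theorem exists_PX (hq : 0 < q) (hM : 0 < M) {R L : ℕ} {θ δ : ℝ} {f : Fin M → ℝ} {w : Matrix (Fin M) (Fin M) ℂ}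
    [NeZero q] (hw : w.IsHermitian) {a : Fin M → Fin M → ZMod q} (h : GoodW q R L θ δ f w a) : ∃ x, PX f w a x := by
  have h1 := TV_xi (msk_hermW h.1 hw) hM
  have h2 := h.2.2.1 _ h1
  have h3 : Phi q f (xi (msk a w) 0) ≠ 0 := by
    intro h0
    rw [h0, norm_zero] at h2
    linarith
  obtain ⟨c, hc, h4⟩ := exists_root hq h3
  refine ⟨c • xi (msk a w) 0, TV_smul h1 hc, ?_⟩
  rw [Phi_smW f hc, h4, Complex.norm_real, norm_norm]

open Classical in
/-- The witness vector. -/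
noncomputable def xW {q : ℕ} (f : Fin M → ℝ) (w : Matrix (Fin M) (Fin M) ℂ) (a : Fin M → Fin M → ZMod q) : Fin M → ℂ :=
  if h : ∃ x, PX f w a x then h.choose else 0

theorem xW_spec {f : Fin M → ℝ} {w : Matrix (Fin M) (Fin M) ℂ} {a : Fin M → Fin M → ZMod q} (h : ∃ x, PX f w a x) :
    PX f w a (xW f w a) := by
  unfold xW
  rw [dif_pos h]
  exact h.choose_spec

/-- Positive phase functions: `c ^ q = 1`. -/
theorem root_one {c : ℂ} (hc : ‖c‖ = 1) {r s : ℝ} (hr : 0 < r) (hs : 0 < s) (h : (r : ℂ) = c ^ q * s) : c ^ q = 1 := by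
  have h1 : r = s := by
    have := congrArg norm h
    rwa [norm_mul, norm_pow, hc, one_pow, one_mul, Complex.norm_real, Complex.norm_real, Real.norm_eq_abs, Real.norm_eq_abs,
      abs_of_pos hr, abs_of_pos hs] at this
  rw [h1] at h
  have h2 : (s : ℂ) ≠ 0 := by exact_mod_cast hs.ne'
  exact mul_right_cancel₀ h2 (by rw [← h, one_mul])

theorem nsq_add_leW (x y : Fin M → ℂ) : nsq (x + y) ≤ 2 * nsq x + 2 * nsq y := by
  unfold nsq
  rw [Finset.mul_sum, Finset.mul_sum, ← Finset.sum_add_distrib]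
  refine Finset.sum_le_sum fun u _ => ?_
  have h := norm_add_le (x u) (y u)
  rw [Pi.add_apply]
  nlinarith [norm_nonneg (x u + y u), norm_nonneg (x u), norm_nonneg (y u), sq_nonneg (‖x u‖ - ‖y u‖)]

/-- Two good exponent matrices with close top vectors. -/
theorem clo_W [NeZero q] (hq : 2 ≤ q) {R L : ℕ} {θ δ κ : ℝ} {f : Fin M → ℝ} {w : Matrix (Fin M) (Fin M) ℂ}
    {a : Fin M → Fin M → ZMod q} (h : GoodW q R L θ δ f w a) {s : List (Vr M × ZMod q)} (hs : s.length ≤ R)
    (h' : GoodW q R L θ δ f w (a + tot s)) {x x' : Fin M → ℂ} (hx : PX f w a x) (hx' : PX f w (a + tot s) x')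
    (hip : 1 - ‖ip x x'‖ ≤ κ) : ∃ k : ZMod q, nsq (x' - om q k • x) ≤ 4 * κ + 32 * δ ^ 2 := by
  -- align
  obtain ⟨c, hc, h1⟩ : ∃ c : ℂ, ‖c‖ = 1 ∧ c * ip x x' = (‖ip x x'‖ : ℂ) := by
    by_cases h0 : ip x x' = 0
    · exact ⟨1, norm_one, by rw [h0]; simp⟩
    · refine ⟨(‖ip x x'‖ : ℂ) / ip x x', ?_, div_mul_cancel₀ _ h0⟩
      rw [norm_div, Complex.norm_real, norm_norm, div_self (norm_ne_zero_iff.2 h0)]
  have h2 : ip x (c • x') = (‖ip x x'‖ : ℂ) := by rw [ip_smul_right, h1]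
  have h3 := h.2.2.2 s hs h'.2.1 x (c • x') hx.1 (TV_smul hx'.1 hc) (by rw [h2, Complex.ofReal_re]; exact norm_nonneg _)
    (by rw [h2, Complex.ofReal_im])
  have hr := h.2.2.1 x hx.1
  have hr' := h'.2.2.1 x' hx'.1
  rw [Phi_smW f hc, hx.2, hx'.2] at h3
  set r := ‖Phi q f x‖ with hrd
  set r' := ‖Phi q f x'‖ with hrd'
  have h4 : |r - r'| ≤ δ := by
    have h5 := abs_norm_sub_norm_le (r : ℂ) (c ^ q * (r' : ℂ))
    rw [norm_mul, norm_pow, hc, one_pow, one_mul, Complex.norm_real, Complex.norm_real, Real.norm_eq_abs, Real.norm_eq_abs,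
      abs_of_nonneg (by linarith : (0:ℝ) ≤ r), abs_of_nonneg (by linarith : (0:ℝ) ≤ r')] at h5
    exact h5.trans h3
  have h6 : ‖c ^ q - 1‖ ≤ 4 * δ := by
    have h7 : (c ^ q - 1) * (r : ℂ) = - ((r : ℂ) - c ^ q * (r' : ℂ)) + c ^ q * ((r : ℂ) - (r' : ℂ)) := by ring
    have h8 : ‖(c ^ q - 1) * (r : ℂ)‖ ≤ 2 * δ := by
      rw [h7]
      refine (norm_add_le _ _).trans ?_
      rw [norm_neg, norm_mul, norm_pow, hc, one_pow, one_mul, ← Complex.ofReal_sub, Complex.norm_real, Real.norm_eq_abs]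
      linarith
    rw [norm_mul, Complex.norm_real, Real.norm_eq_abs, abs_of_nonneg (by linarith : (0:ℝ) ≤ r)] at h8
    nlinarith [norm_nonneg (c ^ q - 1)]
  obtain ⟨k, hk⟩ := root_nearW hq hc
  have h9 : ‖c - om q k‖ ≤ 4 * δ := hk.trans h6
  refine ⟨-k, ?_⟩
  -- multiply by `om k`
  have h10 : nsq (x' - om q (-k) • x) = nsq (om q k • x' - x) := by
    have : om q k • x' - x = om q k • (x' - om q (-k) • x) := by
      rw [smul_sub, smul_smul, ← om_add, add_neg_cancel, om_zero, one_smul]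
    rw [this, nsq_smul, om_norm]
    ring
  rw [h10]
  have h11 : om q k • x' - x = (c • x' - x) + (om q k - c) • x' := by
    rw [sub_smul]; abel
  rw [h11]
  refine (nsq_add_leW _ _).trans ?_
  have h12 : nsq (c • x' - x) ≤ 2 * κ := by
    rw [nsq_sub_comm, nsq_sub, nsq_smul, hc, hx.1.1, hx'.1.1, h2, Complex.ofReal_re]
    linarith
  have h13 : nsq ((om q k - c) • x') ≤ (4 * δ) ^ 2 := by
    rw [nsq_smul, hx'.1.1, mul_one, norm_sub_rev]
    exact pow_le_pow_left₀ (norm_nonneg _) h9 2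
  nlinarith

end ACpFrege
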